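import Mathlib
import Pool.Agent.Helper23.IM.Path
import Pool.Agent.Helper23.IM.Defs
import Pool.Agent.Helper23.IM.Retract

/-!
# Piece B0: removing an uncovered edge
-/

namespace IM.H12

open FreeGroup IM

section

variable {A V : Type*} [MulAction (FreeGroup A) V]

/-- source and target of the edge read from `v` -/
theorem edge_ends (v : V) (x : A × Bool) :
    ((edge v x).2 = v ∧ tgt (edge v x) = step v x) ∨
      ((edge v x).2 = step v x ∧ tgt (edge v x) = v) := by
  by_cases hx : x.2 = true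
  · exact Or.inl ⟨edge_snd_true v x hx, tgt_edge_true v x hx⟩
  · have hx' : x.2 = false := by simpa using hx
    exact Or.inr ⟨edge_snd_false v x hx', tgt_edge_false v x hx'⟩

theorem edge_self (e : A × V) : edge e.2 (e.1, true) = e := by
  simp [edge]

theorem conn_of_mem {E : Set (A × V)} {e : A × V} (he : e ∈ E) :
    Conn E e.2 (FreeGroup.of e.1) (tgt e) := by
  have h : edge e.2 (e.1, true) ∈ E := by rw [edge_self]; exact he
  have := Conn.of_edge (E := E) h
  exact this

theorem wt_eq_one {G : Type*} [Group G] (κ : A × V → G) {E : Set (A × V)}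
    (hκ : ∀ e ∈ E, κ e = 1) {v : V} {u : List (A × Bool)} (hu : IsPath E v u) :
    wt κ v u = 1 := by
  induction u generalizing v with
  | nil => rfl
  | cons x u ih =>
    rw [wt_cons, hκ _ hu.1, ih hu.2]
    simp

theorem wtF_conn_eq_one {G : Type*} [Group G] (κ : A × V → G) {E : Set (A × V)}
    (hκ : ∀ e ∈ E, κ e = 1) {v v' : V} {g : FreeGroup A} (h : Conn E v g v') :
    wtF κ v g = 1 := by
  obtain ⟨u, rfl, hu, _⟩ := h
  rw [wtF_mk]
  exact wt_eq_one κ hκ hu

/-- elements fixing `v₀` with trivial weight -/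
def wtKer {G : Type*} [Group G] (κ : A × V → G) (v₀ : V) : Subgroup (FreeGroup A) where
  carrier := {g | g⁻¹ • v₀ = v₀ ∧ wtF κ v₀ g = 1}
  mul_mem' := by
    rintro g h ⟨hg, hg'⟩ ⟨hh, hh'⟩
    refine ⟨?_, ?_⟩
    · rw [mul_inv_rev, mul_smul, hg, hh]
    · rw [wtF_mul, hg, hg', hh', one_mul]
  one_mem' := ⟨by simp, wtF_one κ v₀⟩
  inv_mem' := by
    rintro g ⟨hg, hg'⟩
    have h2 : g • v₀ = v₀ := by
      conv_lhs => rw [← hg]
      rw [smul_inv_smul]
    refine ⟨by rw [inv_inv]; exact h2, ?_⟩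
    have := wtF_inv κ v₀ g
    rw [hg, hg', inv_one] at this
    exact this

theorem wtF_pow_eq_one {G : Type*} [Group G] (κ : A × V → G) (t : FreeGroup A) {P : V → Prop}
    (hP : ∀ v, P v → P (t⁻¹ • v)) (hw : ∀ v, P v → wtF κ v t = 1) (N : ℕ) (v : V) (hv : P v) :
    wtF κ v (t ^ N) = 1 := by
  induction N generalizing v with
  | zero => rw [pow_zero, wtF_one]
  | succ N ih =>
    rw [pow_succ', wtF_mul, hw v hv, ih _ (hP v hv), one_mul]

/-- if all the loops of `C` avoid `e` and the basic part avoids `e`, closed paths of `E` have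
`e`-count zero. -/
theorem fk_le_wtKer {v₀ : V} {tw : List (A × Bool)} {N : ℕ}
    {S : Set (FreeGroup A)} {ED : Set (A × V)} {FD : Subgroup (FreeGroup A)}
    {T : Set (FreeGroup A)} {E : Set (A × V)} {C : Set V}
    (hG : Good v₀ tw N S ED FD T E C) (hFD : FD ≤ FK v₀ ED)
    {G : Type*} [CommGroup G] (κ : A × V → G) (h1 : ∀ e ∈ ED, κ e = 1)
    (h2 : ∀ v ∈ C, wt κ v tw = 1) : FK v₀ E ≤ wtKer κ v₀ := by
  refine hG.gen.trans (sup_le ?_ ?_)
  · intro g hg
    have h := hFD hg
    exact ⟨Conn.eq h, wtF_conn_eq_one κ h1 h⟩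
  · unfold NK
    rw [Subgroup.closure_le]
    rintro g ⟨x, v, hv, hx, rfl⟩
    have hxv : x⁻¹ • v₀ = v := Conn.eq hx
    have hper := hG.per v hv
    have hw : wtF κ v (FreeGroup.mk tw ^ N) = 1 := by
      refine wtF_pow_eq_one κ (FreeGroup.mk tw) (P := fun v => v ∈ C) ?_ ?_ N v hv
      · intro v hv
        exact hG.cyc v hv
      · intro v hv
        rw [wtF_mk]
        exact h2 v hv
    refine ⟨?_, ?_⟩
    · rw [mul_inv_rev, mul_inv_rev, inv_inv, mul_smul, mul_smul, hxv, hper, ← hxv, smul_inv_smul]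
    · rw [wtF_mul, wtF_mul, hxv, hw, mul_inv_rev, mul_smul, hxv, hper]
      have := wtF_inv κ v₀ x
      rw [hxv] at this
      rw [this, mul_one, mul_inv_cancel]

/-- the vertices joined to `v₀` inside `E` -/
def Near (v₀ : V) (E : Set (A × V)) : Set V := {v | ∃ g, Conn E v₀ g v}

theorem near_step {v₀ : V} {E : Set (A × V)} {v : V} {x : A × Bool} (h : edge v x ∈ E) :
    v ∈ Near v₀ E ↔ step v x ∈ Near v₀ E := by
  constructor
  · rintro ⟨g, hg⟩
    exact ⟨_, hg.trans (Conn.of_edge h)⟩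
  · rintro ⟨g, hg⟩
    exact ⟨_, hg.trans (Conn.of_edge h).symm⟩

theorem near_tgt {v₀ : V} {E : Set (A × V)} {e : A × V} (h : e ∈ E) :
    e.2 ∈ Near v₀ E ↔ tgt e ∈ Near v₀ E := by
  have h' : edge e.2 (e.1, true) ∈ E := by rw [edge_self]; exact h
  exact near_step h'

theorem near_endp {v₀ : V} {E : Set (A × V)} {v : V} {u : List (A × Bool)} (h : IsPath E v u) :
    v ∈ Near v₀ E ↔ endp v u ∈ Near v₀ E := by
  induction u generalizing v with
  | nil => simp
  | cons x u ih =>
    rw [endp_cons, near_step (v₀ := v₀) h.1]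
    exact ih h.2

theorem edge_snd_near {v₀ : V} {E : Set (A × V)} {v : V} {x : A × Bool} (h : edge v x ∈ E) :
    (edge v x).2 ∈ Near v₀ E ↔ v ∈ Near v₀ E := by
  rcases edge_ends v x with ⟨h1, _⟩ | ⟨h1, _⟩
  · rw [h1]
  · rw [h1]; exact (near_step h).symm

theorem _root_.IM.remove_uncovered {v₀ : V}
    {tw : List (A × Bool)} {N : ℕ}
    {S : Set (FreeGroup A)} {ED : Set (A × V)} {FD : Subgroup (FreeGroup A)}
    {T : Set (FreeGroup A)} {E : Set (A × V)} {C : Set V}
    (hG : Good v₀ tw N S ED FD T E C) (hFD : FD ≤ FK v₀ ED) (hT : T ⊆ FD)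
    (hreach : ∀ e ∈ E, ∃ g, Conn E v₀ g e.2) (hED : ∀ e ∈ ED, ∃ g, Conn ED v₀ g e.2)
    (e : A × V) (he : e ∈ E) (heD : e ∉ ED)
    (hunc : ∀ v ∈ C, IsPath (E \ {e}) v tw) :
    ∃ (E' : Set (A × V)) (C' : Set V), E' ⊆ E \ {e} ∧ C' ⊆ C ∧ Good v₀ tw N S ED FD T E' C' := by
  classical
  -- the two ends of `e` are not both near
  have hsep : ¬ (e.2 ∈ Near v₀ (E \ {e}) ∧ tgt e ∈ Near v₀ (E \ {e})) := by
    rintro ⟨⟨g1, h1⟩, ⟨g2, h2⟩⟩
    let κ : A × V → Multiplicative ℤ := fun e' => if e' = e then Multiplicative.ofAdd 1 else 1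
    have hκ : ∀ e' ∈ E \ {e}, κ e' = 1 := by
      rintro e' ⟨_, he'⟩
      have : e' ≠ e := by simpa using he'
      simp [κ, this]
    have hle : FK v₀ E ≤ wtKer κ v₀ := by
      refine fk_le_wtKer hG hFD κ ?_ ?_
      · intro e' he'
        have : e' ≠ e := fun h => heD (h ▸ he')
        simp [κ, this]
      · intro v hv
        exact wt_eq_one κ hκ (hunc v hv)
    have hmem : g1 * FreeGroup.of e.1 * g2⁻¹ ∈ FK v₀ E :=
      ((h1.mono Set.sdiff_subset).trans (conn_of_mem he)).trans (h2.mono Set.sdiff_subset).symm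
    have h3 := (hle hmem).2
    rw [wtF_mul, wtF_mul, wtF_conn_eq_one κ hκ h1, Conn.eq h1, one_mul] at h3
    have h4 : wtF κ e.2 (FreeGroup.of e.1) = Multiplicative.ofAdd 1 := by
      have : (FreeGroup.of e.1 : FreeGroup A) = FreeGroup.mk [(e.1, true)] := rfl
      rw [this, wtF_mk, wt_cons, edge_self]
      simp [κ]
    have h5 : (g1 * FreeGroup.of e.1)⁻¹ • v₀ = tgt e :=
      Conn.eq ((h1.mono Set.sdiff_subset).trans (conn_of_mem he))
    rw [h5, h4, wtF_conn_eq_one κ hκ h2.symm, mul_one] at h3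
    have h6 : (1 : ℤ) = 0 := h3
    exact one_ne_zero h6
  -- at least one end is near
  have hone : e.2 ∈ Near v₀ (E \ {e}) ∨ tgt e ∈ Near v₀ (E \ {e}) := by
    obtain ⟨g, u, rfl, hu, hend⟩ := hreach e he
    -- general statement on paths
    have key : ∀ (u : List (A × Bool)) (v : V), v ∈ Near v₀ (E \ {e}) → IsPath E v u →
        (endp v u ∈ Near v₀ (E \ {e})) ∨
          (e.2 ∈ Near v₀ (E \ {e}) ∨ tgt e ∈ Near v₀ (E \ {e})) := by
      intro u
      induction u with
      | nil => intro v hv _; left; simpa using hv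
      | cons x u ih =>
        intro v hv hp
        by_cases hx : edge v x = e
        · right
          rcases edge_ends v x with ⟨h1, _⟩ | ⟨_, h1⟩
          · left
            have h2 : e.2 = v := by rw [← hx]; exact h1
            rw [h2]; exact hv
          · right
            have h2 : tgt e = v := by rw [← hx]; exact h1
            rw [h2]; exact hv
        · have hmem : edge v x ∈ E \ {e} := ⟨hp.1, by simpa using hx⟩
          have := ih (step v x) ((near_step hmem).1 hv) hp.2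
          rwa [endp_cons]
    rcases key u v₀ ⟨1, Conn.refl _ _⟩ hu with h | h
    · left; rwa [hend] at h
    · exact h
  -- the near end
  obtain ⟨ne, hne, hne2, hne3⟩ : ∃ ne : V, ne ∈ Near v₀ (E \ {e}) ∧
      (e.2 ∈ Near v₀ (E \ {e}) → e.2 = ne) ∧ (tgt e ∈ Near v₀ (E \ {e}) → tgt e = ne) := by
    rcases hone with h | h
    · exact ⟨e.2, h, fun _ => rfl, fun h' => absurd ⟨h, h'⟩ hsep⟩
    · exact ⟨tgt e, h, fun h' => absurd ⟨h', h⟩ hsep, fun _ => rfl⟩
  let E' : Set (A × V) := {e' | e' ∈ E \ {e} ∧ e'.2 ∈ Near v₀ (E \ {e})}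
  let C' : Set V := C ∩ Near v₀ (E \ {e})
  let ρ : V → V := fun v => if v ∈ Near v₀ (E \ {e}) then v else ne
  let κ : A × V → FreeGroup A := fun e' => if e' ∈ E' then FreeGroup.of e'.1 else 1
  have hE'sub : E' ⊆ E \ {e} := fun e' h => h.1
  have hfar : ∀ (u : List (A × Bool)) (v : V), v ∉ Near v₀ (E \ {e}) → IsPath (E \ {e}) v u →
      wt κ v u = 1 := by
    intro u
    induction u with
    | nil => intro v _ _; rfl
    | cons x u ih =>
      intro v hv hp
      have h1 : edge v x ∉ E' := fun h => hv ((edge_snd_near hp.1).1 h.2)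
      have h2 : step v x ∉ Near v₀ (E \ {e}) := fun h => hv ((near_step hp.1).2 h)
      rw [wt_cons, ih _ h2 hp.2]
      simp [κ, h1]
  have hpathnear : ∀ (u : List (A × Bool)) (v : V), v ∈ Near v₀ (E \ {e}) →
      IsPath (E \ {e}) v u → IsPath E' v u := by
    intro u
    induction u with
    | nil => intro v _ _; trivial
    | cons x u ih =>
      intro v hv hp
      exact ⟨⟨hp.1, (edge_snd_near hp.1).2 hv⟩, ih _ ((near_step hp.1).1 hv) hp.2⟩
  refine ⟨E', C', hE'sub, Set.inter_subset_left, ?_⟩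
  refine retract hG hFD hT ?_ (hE'sub.trans Set.sdiff_subset) Set.inter_subset_left ?_ ?_ ρ ?_ κ
    ?_ ?_ ?_
  · intro e' he'
    have hne' : e' ≠ e := fun h => heD (h ▸ he')
    refine ⟨⟨hG.sub he', by simpa using hne'⟩, ?_⟩
    obtain ⟨g, hg⟩ := hED e' he'
    refine ⟨g, hg.mono ?_⟩
    intro e'' he''
    have : e'' ≠ e := fun h => heD (h ▸ he'')
    exact ⟨hG.sub he'', by simpa using this⟩
  · rintro v ⟨hv, hv'⟩
    exact ⟨hG.cyc v hv, (near_endp (hunc v hv)).1 hv'⟩
  · rintro v ⟨hv, hv'⟩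
    exact hpathnear tw v hv' (hunc v hv)
  · have : v₀ ∈ Near v₀ (E \ {e}) := ⟨1, Conn.refl _ _⟩
    simp [ρ, this]
  · intro e' he' _
    by_cases hee : e' = e
    · subst hee
      have h1 : e' ∉ E' := fun h => h.1.2 rfl
      have h2 : ρ e'.2 = ne := by
        by_cases h : e'.2 ∈ Near v₀ (E \ {e'})
        · simp only [ρ, h, if_true]; exact hne2 h
        · simp only [ρ, h, if_false]
      have h3 : ρ (tgt e') = ne := by
        by_cases h : tgt e' ∈ Near v₀ (E \ {e'})
        · simp only [ρ, h, if_true]; exact hne3 h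
        · simp only [ρ, h, if_false]
      rw [h2, h3]
      simp only [κ, h1, if_false]
      exact Conn.refl _ _
    · have hmem : e' ∈ E \ {e} := ⟨he', by simpa using hee⟩
      by_cases h : e'.2 ∈ Near v₀ (E \ {e})
      · have h' := (near_tgt hmem).1 h
        have hm : e' ∈ E' := ⟨hmem, h⟩
        simp only [ρ, κ, h, h', hm, if_true]
        exact conn_of_mem hm
      · have h' : tgt e' ∉ Near v₀ (E \ {e}) := fun hh => h ((near_tgt hmem).2 hh)
        have hm : e' ∉ E' := fun hh => h hh.2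
        simp only [ρ, κ, h, h', hm, if_false]
        exact Conn.refl _ _
  · intro e' he'
    simp only [κ, he', if_true]
  · intro v hv _
    by_cases h : v ∈ Near v₀ (E \ {e})
    · right
      exact ⟨⟨hv, h⟩, by simp [ρ, h]⟩
    · left
      refine wtF_pow_eq_one κ (FreeGroup.mk tw)
        (P := fun v => v ∈ C ∧ v ∉ Near v₀ (E \ {e})) ?_ ?_ N v ⟨hv, h⟩
      · rintro v ⟨hv, hv'⟩
        exact ⟨hG.cyc v hv, fun hh => hv' ((near_endp (hunc v hv)).2 hh)⟩
      · rintro v ⟨hv, hv'⟩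
        rw [wtF_mk]
        exact hfar tw v hv' (hunc v hv)

end

end IM.H12
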